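import Pool.Agent.NPC.Dec

/-!
# The single-vehicle scheduling problem on a path

The vertices of the path are numbered `0, …, n - 1` in their order along the line (called places).
-/

set_option autoImplicit false

namespace Pool.Agent.TH664.VSP

/-- The data of an instance: the list of the jobs `(release time, handling time)` of the vertices, in
the order of the vertices along the line; the list of the travel times `(rightward, leftward)` of the
edges between consecutive vertices; the place of the start vertex; the bound `K`. All numbers are
coded in binary. -/
abbrev Inst := List (ℕ × ℕ) × List (ℕ × ℕ) × ℕ × ℕ

/-- the number of vertices (and of jobs) -/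
def size (I : Inst) : ℕ := I.1.length

/-- the release time of the job at place `p` -/
def rel (I : Inst) (p : ℕ) : ℕ := (I.1.getD p (0, 0)).1

/-- the handling time of the job at place `p` -/
def han (I : Inst) (p : ℕ) : ℕ := (I.1.getD p (0, 0)).2

/-- the travel time from place `e` to place `e + 1` -/
def right (I : Inst) (e : ℕ) : ℕ := (I.2.1.getD e (0, 0)).1

/-- the travel time from place `e + 1` to place `e` -/
def left (I : Inst) (e : ℕ) : ℕ := (I.2.1.getD e (0, 0)).2

/-- the place of the start vertex -/
def start (I : Inst) : ℕ := I.2.2.1

/-- the bound `K` -/
def bound (I : Inst) : ℕ := I.2.2.2

/-- The travel time from place `p` to place `q`: the sum of the travel times of the edges of the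
path from `p` to `q`, in the direction from `p` to `q`. -/
def travel (I : Inst) (p q : ℕ) : ℕ :=
  if p ≤ q then ∑ e ∈ Finset.Ico p q, right I e else ∑ e ∈ Finset.Ico q p, left I e

/-- The time at which the vehicle is back at the start vertex if at time `t` it is at place `p` and
then processes the jobs of the list in this order: it travels to the next job, waits until its
release time if it arrives earlier, processes it, and so on. -/
def finish (I : Inst) : ℕ → ℕ → List ℕ → ℕ
  | t, p, [] => t + travel I p (start I)
  | t, p, q :: l => finish I (max (t + travel I p q) (rel I q) + han I q) q l

/-- The completion time of the schedule `π`. -/
def completion (I : Inst) (π : List ℕ) : ℕ := finish I 0 (start I) π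

/-- A schedule: a permutation of all jobs. -/
def IsSchedule (I : Inst) (π : List ℕ) : Prop := π.Perm (List.range (size I))

/-- The data describe an instance with positive handling times: there is one edge less than there are
vertices, the start vertex is one of the vertices, and all handling times are positive. -/
def IsInstance (I : Inst) : Prop :=
  I.2.1.length + 1 = size I ∧ start I < size I ∧ ∀ p < size I, 0 < han I p

/-- The decision version of the single-vehicle scheduling problem on a path with release times and
positive handling times: is there a schedule with completion time at most `K`? -/
def PathVSP (I : Inst) : Prop := IsInstance I ∧ ∃ π, IsSchedule I π ∧ completion I π ≤ bound I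

/-- The special instances produced by the reduction: the start vertex is an end of the path, all travel
times are positive and they do not depend on the direction. -/
def Simple (I : Inst) : Prop :=
  IsInstance I ∧ start I = 0 ∧ ∀ e, e + 1 < size I → 0 < right I e ∧ left I e = right I e

end Pool.Agent.TH664.VSP
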