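import Pool.Agent.TH664.VSP.Path

/-!
# The instance, and the proof that a fast schedule solves the subset sum instance
-/

set_option autoImplicit false

namespace Pool.Agent.TH664.VSP

variable (a : ℕ → ℕ) (n G : ℕ)

/-- length of the edge `e` -/
def len (e : ℕ) : ℕ := if e % 2 = 1 then a (e / 2) else 1

/-- the sum of all items -/
def tot : ℕ := ∑ i ∈ Finset.range n, a i

/-- the handling time of the long jobs -/
def big : ℕ := 4 * tot a n + 1

/-- the length of the path -/
def lth : ℕ := pos (len a) (2 * n + 1)

/-- release time of the last job -/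
def rlast : ℕ := lth a n + n * big a n + 1 + 4 * G

/-- release times -/
def rl (p : ℕ) : ℕ :=
  if p = 2 * n + 1 then rlast a n G
  else if p % 2 = 1 then pos (len a) p + (p / 2 + 1) * big a n + 1 else 0

/-- handling times -/
def hn (p : ℕ) : ℕ :=
  if p = 0 ∨ p = 2 * n + 1 then 1 else if p % 2 = 1 then 2 * a (p / 2) else big a n

/-- the bound -/
def bnd : ℕ := rlast a n G + 1 + lth a n + 2 * (tot a n - G)

theorem len_odd (i : ℕ) : len a (2 * i + 1) = a i := by
  unfold len
  rw [if_pos (by omega)]
  congr 1; omega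

theorem rl_item {i : ℕ} (hi : i < n) :
    rl a n G (2 * i + 1) = pos (len a) (2 * i + 1) + (i + 1) * big a n + 1 := by
  unfold rl
  rw [if_neg (by omega), if_pos (by omega)]
  congr 3; omega

theorem rl_big {i : ℕ} : rl a n G (2 * i + 2) = 0 := by
  unfold rl
  rw [if_neg (by omega), if_neg (by omega)]

theorem rl_last : rl a n G (2 * n + 1) = rlast a n G := by
  unfold rl
  rw [if_pos rfl]

theorem hn_item {i : ℕ} (hi : i < n) : hn a n (2 * i + 1) = 2 * a i := by
  unfold hn
  rw [if_neg (by omega), if_pos (by omega)]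
  congr 2; omega

theorem hn_big {i : ℕ} : hn a n (2 * i + 2) = big a n := by
  unfold hn
  rw [if_neg (by omega), if_neg (by omega)]

theorem hn_zero : hn a n 0 = 1 := by
  unfold hn
  rw [if_pos (by omega)]

theorem hn_last : hn a n (2 * n + 1) = 1 := by
  unfold hn
  rw [if_pos (by omega)]

theorem sum_pairs (F : ℕ → ℕ) (n : ℕ) : ∑ e ∈ Finset.range (2 * n + 1), F e =
    F 0 + ∑ i ∈ Finset.range n, (F (2 * i + 1) + F (2 * i + 2)) := by
  induction n with
  | zero => simp
  | succ n ih =>
    rw [show 2 * (n + 1) + 1 = 2 * n + 1 + 1 + 1 by ring, Finset.sum_range_succ,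
      Finset.sum_range_succ, ih, Finset.sum_range_succ]
    ring

theorem sum_list_range (F : ℕ → ℕ) (n : ℕ) :
    ((List.range n).map F).sum = ∑ i ∈ Finset.range n, F i := by
  induction n with
  | zero => simp
  | succ n ih => rw [List.range_succ, List.map_append, List.sum_append, ih, Finset.sum_range_succ]; simp

theorem sum_hn : ∑ p ∈ Finset.range (2 * n + 2), hn a n p = 2 * tot a n + n * big a n + 2 := by
  rw [Finset.sum_range_succ, sum_pairs, hn_zero, hn_last]
  have h : ∑ i ∈ Finset.range n, (hn a n (2 * i + 1) + hn a n (2 * i + 2)) =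
      ∑ i ∈ Finset.range n, (2 * a i + big a n) := by
    refine Finset.sum_congr rfl fun i hi => ?_
    rw [Finset.mem_range] at hi
    rw [hn_item a n hi, hn_big]
  rw [h, Finset.sum_add_distrib, ← Finset.mul_sum]
  simp only [Finset.sum_const, Finset.card_range, smul_eq_mul, tot]
  ring

theorem mem_sum_le {h : ℕ → ℕ} {l : List ℕ} {q : ℕ} (hq : q ∈ l) : h q ≤ (l.map h).sum :=
  List.le_sum_of_mem (List.mem_map_of_mem hq)

theorem sum_image_le {h : ℕ → ℕ} {l : List ℕ} (hl : l.Nodup) (s : Finset ℕ) (φ : ℕ → ℕ)
    (hφ : Function.Injective φ) (hs : ∀ i ∈ s, φ i ∈ l) :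
    ∑ i ∈ s, h (φ i) ≤ (l.map h).sum := by
  rw [← List.sum_toFinset h hl, ← Finset.sum_image (f := h) (g := φ) (fun x _ y _ hxy => hφ hxy)]
  refine Finset.sum_le_sum_of_subset ?_
  intro x hx
  rw [Finset.mem_image] at hx
  obtain ⟨i, hi, rfl⟩ := hx
  exact List.mem_toFinset.2 (hs i hi)

/-- A schedule with completion time at most the bound gives a solution of the subset sum
instance. -/
theorem lower (hG : G ≤ tot a n) (π : List ℕ)
    (hπ : π.Perm (List.range (2 * n + 2)))
    (hK : (adv (len a) (rl a n G) (hn a n) (0, 0) π).1 +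
      dis (len a) (adv (len a) (rl a n G) (hn a n) (0, 0) π).2 0 ≤ bnd a n G) :
    ∃ f : ℕ → Bool, (∑ i ∈ Finset.range n, if f i = true then a i else 0) = G := by
  have hmem : ∀ q, q ∈ π ↔ q < 2 * n + 2 := fun q => by rw [hπ.mem_iff, List.mem_range]
  have hnd : π.Nodup := hπ.nodup_iff.2 List.nodup_range
  obtain ⟨π₁, π₂, rfl⟩ := List.append_of_mem ((hmem (2 * n + 1)).2 (by omega))
  have hsum : ((π₁ ++ (2 * n + 1) :: π₂).map (hn a n)).sum = 2 * tot a n + n * big a n + 2 := by
    rw [(hπ.map _).sum_eq, sum_list_range, sum_hn]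
  rw [List.map_append, List.sum_append, List.map_cons, List.sum_cons, hn_last] at hsum
  -- the state before the last job
  set T₁ := adv (len a) (rl a n G) (hn a n) (0, 0) π₁ with hT₁
  have hle1 : ∀ q ∈ π₁, q ≤ 2 * n + 1 := fun q hq => by
    have := (hmem q).1 (List.mem_append_left _ hq); omega
  have hle2 : ∀ q ∈ π₂, q ≤ 2 * n + 1 := fun q hq => by
    have := (hmem q).1 (List.mem_append_right _ (List.mem_cons_of_mem _ hq)); omega
  have hA := adv_lower (len a) (rl a n G) (hn a n) (2 * n + 1) π₁ (0, 0)
  rw [← hT₁] at hA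
  simp only [Nat.zero_add] at hA
  rw [adv_append, adv, ← hT₁, rl_last, hn_last] at hK
  set T₂ := max (T₁.1 + dis (len a) T₁.2 (2 * n + 1)) (rlast a n G) with hT₂
  have hB := adv_lower (len a) (rl a n G) (hn a n) 0 π₂ (T₂ + 1, 2 * n + 1)
  simp only at hB
  have hC := dis_le_plen (len a) (N := 2 * n + 1) (2 * n + 1) π₂ 0 le_rfl hle2 (by omega)
  have hL : dis (len a) (2 * n + 1) 0 = lth a n := by
    rw [dis_ge (len a) (by omega)]
    simp [lth, pos]
  rw [hL] at hC
  have hT₂a : T₁.1 + dis (len a) T₁.2 (2 * n + 1) ≤ T₂ := le_max_left _ _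
  have hT₂b : rlast a n G ≤ T₂ := le_max_right _ _
  set S₁ := (π₁.map (hn a n)).sum with hS₁
  set S₂ := (π₂.map (hn a n)).sum with hS₂
  have hb : bnd a n G = rlast a n G + 1 + lth a n + 2 * (tot a n - G) := rfl
  have hS₂le : S₂ ≤ 2 * (tot a n - G) := by omega
  have hbig : big a n = 4 * tot a n + 1 := rfl
  have hR : rlast a n G = lth a n + n * big a n + 1 + 4 * G := rfl
  -- all long jobs are before the last job
  have hv : ∀ j < n, 2 * j + 2 ∈ π₁ := by
    intro j hj
    have h1 : 2 * j + 2 ∈ π₁ ++ (2 * n + 1) :: π₂ := (hmem _).2 (by omega)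
    rcases List.mem_append.1 h1 with h | h
    · exact h
    · exfalso
      rcases List.mem_cons.1 h with h | h
      · omega
      · have h2 := mem_sum_le (h := hn a n) h
        rw [hn_big] at h2
        omega
  have hplen : plen (len a) 0 (π₁ ++ [2 * n + 1]) ≤ lth a n + 2 * G := by omega
  have hnd1 : π₁.Nodup := (List.nodup_append.1 hnd).1
  have hnd2 : π₂.Nodup := (List.nodup_cons.1 (List.nodup_append.1 hnd).2.1).2
  -- the items before the last job
  refine ⟨fun i => decide (2 * i + 1 ∈ π₁), le_antisymm ?_ ?_⟩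
  · -- crossings
    beta_reduce
    have hcross : ∀ i < n, 2 * i + 1 ∈ π₁ → 3 ≤ cross (2 * i + 1) 0 (π₁ ++ [2 * n + 1]) := by
      intro i hi hmi
      obtain ⟨α, β, hαβ⟩ := List.append_of_mem hmi
      by_cases hex : ∃ w ∈ α, 2 * i + 1 < w
      · obtain ⟨w, hw, hlt⟩ := hex
        have := cross_three (2 * i + 1) 0 w (2 * i + 1) (2 * n + 1) α β (by omega) hw hlt
          (by omega) (by omega)
        rw [hαβ, List.append_assoc, List.cons_append]
        exact this
      · exfalso
        push Not at hex
        have hD := adv_lower (len a) (rl a n G) (hn a n) (2 * n + 1) β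
          (adv (len a) (rl a n G) (hn a n) (0, 0) (α ++ [2 * i + 1]))
        rw [← adv_append, List.append_assoc, List.singleton_append, ← hαβ, ← hT₁, adv_snd] at hD
        have hE : rl a n G (2 * i + 1) + hn a n (2 * i + 1) ≤
            (adv (len a) (rl a n G) (hn a n) (0, 0) (α ++ [2 * i + 1])).1 := by
          rw [adv_append, adv, adv]
          exact Nat.add_le_add_right (le_max_right _ _) _
        rw [rl_item a n G hi] at hE
        have hlβ : ∀ q ∈ β, q ≤ 2 * n + 1 := fun q hq => hle1 q (by rw [hαβ]; simp [hq])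
        have hF := dis_le_plen (len a) (N := 2 * n + 1) (2 * i + 1) β (2 * n + 1) (by omega) hlβ
          le_rfl
        rw [dis_le (len a) (by omega)] at hF
        have hpm := pos_mono (len a) (p := 2 * i + 1) (q := 2 * n + 1) (by omega)
        have hndβ : β.Nodup := by
          rw [hαβ] at hnd1
          exact (List.nodup_cons.1 (List.nodup_append.1 hnd1).2.1).2
        have hβ : ∀ j ∈ Finset.Ico i n, 2 * j + 2 ∈ β := by
          intro j hj
          rw [Finset.mem_Ico] at hj
          have h1 := hv j hj.2
          rw [hαβ] at h1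
          rcases List.mem_append.1 h1 with h | h
          · have := hex _ h; omega
          · rcases List.mem_cons.1 h with h | h
            · omega
            · exact h
        have hH := sum_image_le (h := hn a n) hndβ (Finset.Ico i n) (fun j => 2 * j + 2)
          (fun x y hxy => by simp only at hxy; omega) hβ
        simp only [hn_big, Finset.sum_const, Nat.card_Ico, smul_eq_mul] at hH
        have hl : pos (len a) (2 * n + 1) = lth a n := rfl
        have hmul : (n - i) * big a n + (i + 1) * big a n = n * big a n + big a n := by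
          rw [← add_mul, show n - i + (i + 1) = n + 1 by omega]; ring
        omega
    have h1 : lth a n + 2 * (∑ i ∈ Finset.range n,
        if decide (2 * i + 1 ∈ π₁) = true then a i else 0) ≤
        plen (len a) 0 (π₁ ++ [2 * n + 1]) := by
      rw [plen_eq_sum (len a) (N := 2 * n + 1) 0 (π₁ ++ [2 * n + 1]) (by omega) (by
        intro q hq
        rcases List.mem_append.1 hq with h | h
        · exact hle1 q h
        · simp only [List.mem_singleton] at h; omega)]
      have h2 : lth a n = ∑ e ∈ Finset.range (2 * n + 1), len a e := rfl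
      rw [h2, sum_pairs, sum_pairs, add_assoc]
      refine Nat.add_le_add ?_ ?_
      · have := cross_mem 0 0 (π₁ ++ [2 * n + 1]) (2 * n + 1) (by simp) (by simp)
        exact Nat.le_mul_of_pos_right _ this
      · rw [Finset.mul_sum, ← Finset.sum_add_distrib]
        refine Finset.sum_le_sum fun i hi => ?_
        rw [Finset.mem_range] at hi
        have h3 := cross_mem (2 * i + 1) 0 (π₁ ++ [2 * n + 1]) (2 * n + 1) (by simp)
          (by simp; omega)
        have h4 := cross_mem (2 * i + 2) 0 (π₁ ++ [2 * n + 1]) (2 * n + 1) (by simp)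
          (by simp; omega)
        have h5 : len a (2 * i + 2) ≤ len a (2 * i + 2) * cross (2 * i + 2) 0 (π₁ ++ [2 * n + 1]) :=
          Nat.le_mul_of_pos_right _ h4
        rw [len_odd]
        by_cases hm : 2 * i + 1 ∈ π₁
        · have h6 := hcross i hi hm
          have h7 : a i * 3 ≤ a i * cross (2 * i + 1) 0 (π₁ ++ [2 * n + 1]) :=
            Nat.mul_le_mul_left _ h6
          simp only [hm, decide_true, if_true]
          omega
        · have h7 : a i ≤ a i * cross (2 * i + 1) 0 (π₁ ++ [2 * n + 1]) :=
            Nat.le_mul_of_pos_right _ h3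
          simp only [hm, decide_false, Bool.false_eq_true, if_false]
          omega
    omega
  · -- the remaining items are handled at the end
    beta_reduce
    have h1 := sum_image_le (h := hn a n) hnd2
      ((Finset.range n).filter fun i => ¬ 2 * i + 1 ∈ π₁) (fun i => 2 * i + 1)
      (fun x y hxy => by simp only at hxy; omega) (by
        intro i hi
        rw [Finset.mem_filter, Finset.mem_range] at hi
        have h2 : 2 * i + 1 ∈ π₁ ++ (2 * n + 1) :: π₂ := (hmem _).2 (by omega)
        rcases List.mem_append.1 h2 with h | h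
        · exact absurd h hi.2
        · rcases List.mem_cons.1 h with h | h
          · omega
          · exact h)
    have h2 : ∑ i ∈ (Finset.range n).filter (fun i => ¬ 2 * i + 1 ∈ π₁), hn a n (2 * i + 1) =
        2 * ∑ i ∈ (Finset.range n).filter (fun i => ¬ 2 * i + 1 ∈ π₁), a i := by
      rw [Finset.mul_sum]
      refine Finset.sum_congr rfl fun i hi => ?_
      rw [Finset.mem_filter, Finset.mem_range] at hi
      rw [hn_item a n hi.1]
    rw [h2] at h1
    have h3 : tot a n = ∑ i ∈ (Finset.range n).filter (fun i => 2 * i + 1 ∈ π₁), a i +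
        ∑ i ∈ (Finset.range n).filter (fun i => ¬ 2 * i + 1 ∈ π₁), a i := by
      rw [Finset.sum_filter_add_sum_filter_not]; rfl
    have h4 : (∑ i ∈ Finset.range n, if decide (2 * i + 1 ∈ π₁) = true then a i else 0) =
        ∑ i ∈ (Finset.range n).filter (fun i => 2 * i + 1 ∈ π₁), a i := by
      rw [Finset.sum_filter]
      refine Finset.sum_congr rfl fun i _ => ?_
      simp only [decide_eq_true_eq]
    rw [h4]
    omega

end Pool.Agent.TH664.VSP
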