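import Mathlib

/-!
# Crossings of a walk on a line
-/

set_option autoImplicit false

namespace Pool.Agent.TH664.VSP

variable (len : ℕ → ℕ)

/-- the position of a place -/
def pos (p : ℕ) : ℕ := ∑ e ∈ Finset.range p, len e

theorem pos_mono {p q : ℕ} (h : p ≤ q) : pos len p ≤ pos len q := by
  unfold pos
  exact Finset.sum_le_sum_of_subset (Finset.range_mono h)

theorem pos_succ (p : ℕ) : pos len (p + 1) = pos len p + len p := by
  unfold pos; rw [Finset.sum_range_succ]

/-- the distance of two places -/
def dis (p q : ℕ) : ℕ := (pos len q - pos len p) + (pos len p - pos len q)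

theorem dis_le {p q : ℕ} (h : p ≤ q) : dis len p q = pos len q - pos len p := by
  have := pos_mono len h
  unfold dis; omega

theorem dis_ge {p q : ℕ} (h : q ≤ p) : dis len p q = pos len p - pos len q := by
  have := pos_mono len h
  unfold dis; omega

/-- number of crossings of the edge `e` by the walk -/
def cross (e : ℕ) : ℕ → List ℕ → ℕ
  | _, [] => 0
  | p, q :: l => (if (decide (e < p)) = (decide (e < q)) then 0 else 1) + cross e q l

/-- length of the walk -/
def plen : ℕ → List ℕ → ℕ
  | _, [] => 0
  | p, q :: l => dis len p q + plen q l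

theorem pos_eq_sum {N p : ℕ} (h : p ≤ N) :
    pos len p = ∑ e ∈ Finset.range N, if e < p then len e else 0 := by
  unfold pos
  rw [← Finset.sum_filter]
  congr 1
  ext e
  simp only [Finset.mem_range, Finset.mem_filter]
  omega

theorem dis_eq_sum {N p q : ℕ} (hp : p ≤ N) (hq : q ≤ N) :
    dis len p q = ∑ e ∈ Finset.range N,
      len e * (if (decide (e < p)) = (decide (e < q)) then 0 else 1) := by
  rcases le_total p q with h | h
  · rw [dis_le len h]
    have h1 : pos len q = pos len p + ∑ e ∈ Finset.range N,
      len e * (if (decide (e < p)) = (decide (e < q)) then 0 else 1) := by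
      rw [pos_eq_sum len hp, pos_eq_sum len hq, ← Finset.sum_add_distrib]
      refine Finset.sum_congr rfl fun e _ => ?_
      by_cases h1 : e < p
      · have h2 : e < q := by omega
        simp [h1, h2]
      · by_cases h2 : e < q <;> simp [h1, h2]
    omega
  · rw [dis_ge len h]
    have h1 : pos len p = pos len q + ∑ e ∈ Finset.range N,
      len e * (if (decide (e < p)) = (decide (e < q)) then 0 else 1) := by
      rw [pos_eq_sum len hp, pos_eq_sum len hq, ← Finset.sum_add_distrib]
      refine Finset.sum_congr rfl fun e _ => ?_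
      by_cases h1 : e < q
      · have h2 : e < p := by omega
        simp [h1, h2]
      · by_cases h2 : e < p <;> simp [h1, h2]
    omega

theorem plen_eq_sum {N : ℕ} : ∀ (p : ℕ) (l : List ℕ), p ≤ N → (∀ q ∈ l, q ≤ N) →
    plen len p l = ∑ e ∈ Finset.range N, len e * cross e p l := by
  intro p l
  induction l generalizing p with
  | nil => intro _ _; simp [plen, cross]
  | cons q l ih =>
    intro hp hl
    have hq : q ≤ N := hl q (by simp)
    rw [plen, ih q hq (fun x hx => hl x (by simp [hx])), dis_eq_sum len hp hq,
      ← Finset.sum_add_distrib]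
    refine Finset.sum_congr rfl fun e _ => ?_
    rw [cross]; ring

theorem cross_mem (e : ℕ) : ∀ (p : ℕ) (l : List ℕ) (q : ℕ), q ∈ l →
    (decide (e < q)) ≠ (decide (e < p)) → 1 ≤ cross e p l := by
  intro p l
  induction l generalizing p with
  | nil => intro q hq; simp at hq
  | cons x l ih =>
    intro q hq hne
    rw [cross]
    by_cases hx : (decide (e < p)) = (decide (e < x))
    · have hqx : q ≠ x := by
        rintro rfl
        exact hne hx.symm
      have hql : q ∈ l := by
        rcases List.mem_cons.1 hq with h | h
        · exact absurd h hqx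
        · exact h
      have := ih x q hql (by rw [← hx]; exact hne)
      omega
    · rw [if_neg hx]; omega

theorem cross_append (e : ℕ) : ∀ (p : ℕ) (l₁ : List ℕ) (x : ℕ) (l₂ : List ℕ),
    cross e p (l₁ ++ x :: l₂) = cross e p (l₁ ++ [x]) + cross e x l₂ := by
  intro p l₁
  induction l₁ generalizing p with
  | nil => intro x l₂; simp [cross]
  | cons y l₁ ih =>
    intro x l₂
    simp only [List.cons_append, cross]
    rw [ih]
    ring

/-- A walk which is left of `e`, then right, then left, then right crosses `e` three times. -/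
theorem cross_three (e p w u z : ℕ) (α β : List ℕ) (hp : ¬ e < p) (hw : w ∈ α) (hwe : e < w)
    (hu : ¬ e < u) (hz : e < z) : 3 ≤ cross e p (α ++ u :: (β ++ [z])) := by
  obtain ⟨α₁, α₂, rfl⟩ := List.append_of_mem hw
  rw [cross_append]
  have h1 : 1 ≤ cross e u (β ++ [z]) := cross_mem e u _ z (by simp) (by simp [hu, hz])
  have h2 : cross e p (α₁ ++ w :: α₂ ++ [u]) = cross e p (α₁ ++ [w]) + cross e w (α₂ ++ [u]) := by
    rw [List.append_assoc, List.cons_append, cross_append]
  have h3 : 1 ≤ cross e p (α₁ ++ [w]) := cross_mem e p _ w (by simp) (by simp [hp, hwe])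
  have h4 : 1 ≤ cross e w (α₂ ++ [u]) := cross_mem e w _ u (by simp) (by simp [hu, hwe])
  omega

theorem dis_le_plen {N : ℕ} (p : ℕ) (l : List ℕ) (z : ℕ) (hp : p ≤ N) (hl : ∀ q ∈ l, q ≤ N)
    (hz : z ≤ N) : dis len p z ≤ plen len p (l ++ [z]) := by
  rw [plen_eq_sum len p (l ++ [z]) hp (by
    intro q hq
    rcases List.mem_append.1 hq with h | h
    · exact hl q h
    · simp only [List.mem_singleton] at h; omega), dis_eq_sum len hp hz]
  refine Finset.sum_le_sum fun e _ => Nat.mul_le_mul_left _ ?_
  by_cases h : (decide (e < p)) = (decide (e < z))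
  · rw [if_pos h]; exact Nat.zero_le _
  · rw [if_neg h]
    exact cross_mem e p _ z (by simp) (Ne.symm h)

/-! ### Walks with waiting and handling -/

variable (r h : ℕ → ℕ)

/-- time and place after processing the jobs of the list -/
def adv : ℕ × ℕ → List ℕ → ℕ × ℕ
  | s, [] => s
  | s, q :: l => adv (max (s.1 + dis len s.2 q) (r q) + h q, q) l

theorem adv_append (s : ℕ × ℕ) (l l' : List ℕ) :
    adv len r h s (l ++ l') = adv len r h (adv len r h s l) l' := by
  induction l generalizing s with
  | nil => rfl
  | cons q l ih => exact ih _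

theorem adv_snd (s : ℕ × ℕ) (l : List ℕ) (q : ℕ) : (adv len r h s (l ++ [q])).2 = q := by
  rw [adv_append]; rfl

theorem adv_lower (x : ℕ) (l : List ℕ) (s : ℕ × ℕ) :
    s.1 + (l.map h).sum + plen len s.2 (l ++ [x]) ≤
      (adv len r h s l).1 + dis len (adv len r h s l).2 x := by
  induction l generalizing s with
  | nil => simp [adv, plen]
  | cons q l ih =>
    have := ih (max (s.1 + dis len s.2 q) (r q) + h q, q)
    simp only [adv, List.cons_append, plen, List.map_cons, List.sum_cons] at this ⊢
    have h1 := le_max_left (s.1 + dis len s.2 q) (r q)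
    omega

end Pool.Agent.TH664.VSP
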