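import Pool.Agent.TH664.VSP.Upper
import Pool.Agent.TH664.VSP.Defs
import Pool.Agent.H671R2.SubsetSum

/-!
# The reduction from subset sum
-/

set_option autoImplicit false

namespace Pool.Agent.TH664.VSP

open Pool.Agent.NPC Pool.Agent.NPC.R671.SS

/-- the items as a function -/
def it (l : List ℕ) (i : ℕ) : ℕ := l.getD i 0

theorem subsetSum_iff' (l : List ℕ) (G : ℕ) :
    SubsetSum (l, G) ↔ ∃ f : ℕ → Bool,
      (∑ i ∈ Finset.range l.length, if f i = true then it l i else 0) = G := by
  unfold SubsetSum
  simp only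
  induction l generalizing G with
  | nil =>
    constructor
    · rintro ⟨s, hs, h⟩
      rw [List.sublist_nil] at hs
      subst hs
      exact ⟨fun _ => false, by simpa using h⟩
    · rintro ⟨f, hf⟩
      exact ⟨[], List.nil_sublist _, by simpa using hf⟩
  | cons x l ih =>
    have hshift : ∀ f : ℕ → Bool, (∑ i ∈ Finset.range (x :: l).length,
        if f i = true then it (x :: l) i else 0) =
        (∑ i ∈ Finset.range l.length, if f (i + 1) = true then it l i else 0) +
          if f 0 = true then x else 0 := by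
      intro f
      rw [List.length_cons, Finset.sum_range_succ']
      simp [it]
    constructor
    · rintro ⟨s, hs, h⟩
      rcases List.sublist_cons_iff.1 hs with h1 | ⟨t, rfl, ht⟩
      · obtain ⟨f, hf⟩ := (ih G).1 ⟨s, h1, h⟩
        refine ⟨fun i => match i with | 0 => false | i + 1 => f i, ?_⟩
        rw [hshift]
        simpa using hf
      · obtain ⟨f, hf⟩ := (ih t.sum).1 ⟨t, ht, rfl⟩
        refine ⟨fun i => match i with | 0 => true | i + 1 => f i, ?_⟩
        rw [hshift]
        simp only [if_true]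
        rw [List.sum_cons] at h
        rw [← h, ← hf]
        ring
    · rintro ⟨f, hf⟩
      rw [hshift] at hf
      obtain ⟨t, ht, hts⟩ := (ih _).2 ⟨fun i => f (i + 1), rfl⟩
      by_cases h0 : f 0 = true
      · refine ⟨x :: t, ht.cons_cons x, ?_⟩
        rw [List.sum_cons, hts]
        simp only [h0, if_true] at hf
        beta_reduce
        omega
      · refine ⟨t, ht.cons x, ?_⟩
        rw [hts]
        simp only [h0] at hf
        simpa using hf

/-- the instance produced by the reduction -/
def mk (x : List ℕ × ℕ) : Inst :=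
  ((List.range (2 * x.1.length + 2)).map fun p =>
      (rl (it x.1) x.1.length x.2 p, hn (it x.1) x.1.length p),
    (List.range (2 * x.1.length + 1)).map fun e => (len (it x.1) e, len (it x.1) e),
    0, bnd (it x.1) x.1.length x.2)

variable (x : List ℕ × ℕ)

theorem getD_map_range {β : Type} (N : ℕ) (F : ℕ → β) (d : β) {p : ℕ} (hp : p < N) :
    ((List.range N).map F).getD p d = F p := by
  rw [List.getD_eq_getElem?_getD, List.getElem?_map, List.getElem?_range hp]
  rfl

theorem size_mk : size (mk x) = 2 * x.1.length + 2 := by simp [size, mk]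

theorem rel_mk {p : ℕ} (hp : p < 2 * x.1.length + 2) :
    rel (mk x) p = rl (it x.1) x.1.length x.2 p := by
  unfold rel mk
  rw [getD_map_range _ _ _ hp]

theorem han_mk {p : ℕ} (hp : p < 2 * x.1.length + 2) :
    han (mk x) p = hn (it x.1) x.1.length p := by
  unfold han mk
  rw [getD_map_range _ _ _ hp]

theorem right_mk {e : ℕ} (he : e < 2 * x.1.length + 1) : right (mk x) e = len (it x.1) e := by
  unfold right mk
  simp only
  rw [getD_map_range _ _ _ he]

theorem left_mk {e : ℕ} (he : e < 2 * x.1.length + 1) : left (mk x) e = len (it x.1) e := by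
  unfold left mk
  simp only
  rw [getD_map_range _ _ _ he]

theorem sum_Ico_len (a : ℕ → ℕ) {p q : ℕ} (h : p ≤ q) :
    ∑ e ∈ Finset.Ico p q, len a e = pos (len a) q - pos (len a) p := by
  unfold pos
  rw [← Finset.sum_range_add_sum_Ico _ h]
  omega

theorem travel_mk {p q : ℕ} (hp : p ≤ 2 * x.1.length + 1) (hq : q ≤ 2 * x.1.length + 1) :
    travel (mk x) p q = dis (len (it x.1)) p q := by
  unfold travel
  split_ifs with h
  · rw [dis_le _ h, ← sum_Ico_len _ h]
    refine Finset.sum_congr rfl fun e he => ?_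
    rw [Finset.mem_Ico] at he
    exact right_mk x (by omega)
  · rw [dis_ge _ (by omega), ← sum_Ico_len _ (by omega)]
    refine Finset.sum_congr rfl fun e he => ?_
    rw [Finset.mem_Ico] at he
    exact left_mk x (by omega)

theorem start_mk : start (mk x) = 0 := rfl

theorem finish_mk (l : List ℕ) (t p : ℕ) (hp : p ≤ 2 * x.1.length + 1)
    (hl : ∀ q ∈ l, q ≤ 2 * x.1.length + 1) :
    finish (mk x) t p l =
      (adv (len (it x.1)) (rl (it x.1) x.1.length x.2) (hn (it x.1) x.1.length) (t, p) l).1 +
      dis (len (it x.1))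
        (adv (len (it x.1)) (rl (it x.1) x.1.length x.2) (hn (it x.1) x.1.length) (t, p) l).2 0 := by
  induction l generalizing t p with
  | nil =>
    simp only [finish, adv, start_mk]
    rw [travel_mk x hp (by omega)]
  | cons q l ih =>
    have hq := hl q (by simp)
    simp only [finish, adv]
    rw [ih _ q hq (fun y hy => hl y (by simp [hy])), travel_mk x hp hq, rel_mk x (by omega),
      han_mk x (by omega)]

theorem it_pos (h : ∀ a ∈ x.1, 0 < a) {i : ℕ} (hi : i < x.1.length) : 0 < it x.1 i := by
  unfold it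
  rw [List.getD_eq_getElem _ _ hi]
  exact h _ (List.getElem_mem hi)

theorem simple_mk (h : ∀ a ∈ x.1, 0 < a) : Simple (mk x) := by
  refine ⟨⟨?_, ?_, ?_⟩, rfl, ?_⟩
  · rw [size_mk]; simp [mk]
  · rw [size_mk, start_mk]; omega
  · intro p hp
    rw [size_mk] at hp
    rw [han_mk x hp]
    unfold hn
    split_ifs with h1 h2
    · exact one_pos
    · have := it_pos x h (i := p / 2) (by omega)
      omega
    · unfold big; omega
  · intro e he
    rw [size_mk] at he
    rw [right_mk x (by omega), left_mk x (by omega)]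
    refine ⟨?_, rfl⟩
    unfold len
    split_ifs with h1
    · exact it_pos x h (by omega)
    · exact one_pos

theorem tot_eq : tot (it x.1) x.1.length = x.1.sum := by
  obtain ⟨l, G⟩ := x
  simp only
  unfold tot
  induction l with
  | nil => simp
  | cons y l ih =>
    rw [List.length_cons, Finset.sum_range_succ', List.sum_cons, ← ih]
    simp only [it, List.getD_cons_succ, List.getD_cons_zero]
    ring

theorem correct' (hn : Nice x) : SubsetSum x ↔ PathVSP (mk x) := by
  have hS := simple_mk x (fun a ha => (hn.1 a ha).1)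
  have hG : x.2 ≤ tot (it x.1) x.1.length := by
    rw [tot_eq]; exact hn.2.le
  have h1 : SubsetSum x ↔ ∃ f : ℕ → Bool,
      (∑ i ∈ Finset.range x.1.length, if f i = true then it x.1 i else 0) = x.2 :=
    subsetSum_iff' x.1 x.2
  rw [h1, main (it x.1) x.1.length x.2 hG]
  unfold PathVSP IsSchedule completion
  rw [size_mk, start_mk]
  constructor
  · rintro ⟨π, hπ, hK⟩
    refine ⟨hS.1, π, hπ, ?_⟩
    rw [finish_mk x π 0 0 (by omega) (fun q hq => by
      have := List.mem_range.1 (hπ.mem_iff.1 hq); omega)]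
    exact hK
  · rintro ⟨-, π, hπ, hK⟩
    refine ⟨π, hπ, ?_⟩
    rw [finish_mk x π 0 0 (by omega) (fun q hq => by
      have := List.mem_range.1 (hπ.mem_iff.1 hq); omega)] at hK
    exact hK

/-! ### Polynomial time -/

theorem it_poly {α : Type} [TEnc α] {l : α → List ℕ} {i : α → ℕ} (h1 : NPC.Poly l)
    (h2 : NPC.Poly i) : NPC.Poly (fun z => it (l z) (i z)) :=
  NPC.Poly.getD h1 h2 (NPC.Poly.const _)

attribute [fun_prop] it_poly

theorem len_poly : NPC.Poly (fun z : List ℕ × ℕ => len (it z.1) z.2) := by
  unfold len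
  fun_prop

/-- the position of a place, computed by a sum over all edges -/
def posL (l : List ℕ) (p : ℕ) : ℕ :=
  ((List.range (2 * l.length + 1)).map fun e => if e < p then len (it l) e else 0).sum

theorem posL_eq (l : List ℕ) {p : ℕ} (hp : p ≤ 2 * l.length + 1) :
    posL l p = pos (len (it l)) p := by
  unfold posL
  rw [sum_list_range, pos_eq_sum _ hp]

theorem posL_poly : NPC.Poly (fun z : List ℕ × ℕ => posL z.1 z.2) := by
  unfold posL
  refine NPC.Poly.sum ?_
  refine NPC.Poly.map (l := fun z : List ℕ × ℕ => List.range (2 * z.1.length + 1))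
    (F := fun z e => if e < z.2 then len (it z.1) e else 0) ?_ ?_
  · exact (((UPoly.const 2).mul (UPoly.length (NPC.Poly.fst NPC.Poly.id))).add
      (UPoly.const 1)).range
  · have h := len_poly.comp (f := fun z : (List ℕ × ℕ) × ℕ => (z.1.1, z.2)) (by fun_prop)
    have h2 : NPC.Poly (fun z : (List ℕ × ℕ) × ℕ => len (it z.1.1) z.2) := h
    fun_prop

theorem posL_poly' {α : Type} [TEnc α] {l : α → List ℕ} {i : α → ℕ} (h1 : NPC.Poly l)
    (h2 : NPC.Poly i) : NPC.Poly (fun z => posL (l z) (i z)) :=
  posL_poly.comp (f := fun z => (l z, i z)) (by fun_prop)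

theorem len_poly' {α : Type} [TEnc α] {l : α → List ℕ} {i : α → ℕ} (h1 : NPC.Poly l)
    (h2 : NPC.Poly i) : NPC.Poly (fun z => len (it (l z)) (i z)) :=
  len_poly.comp (f := fun z => (l z, i z)) (by fun_prop)

attribute [fun_prop] posL_poly' len_poly'

/-- the long handling time -/
def bigL (l : List ℕ) : ℕ := 4 * l.sum + 1

/-- the last release time -/
def rlastL (l : List ℕ) (G : ℕ) : ℕ :=
  posL l (2 * l.length + 1) + l.length * bigL l + 1 + 4 * G

theorem bigL_eq : bigL x.1 = big (it x.1) x.1.length := by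
  unfold bigL big; rw [tot_eq]

theorem rlastL_eq : rlastL x.1 x.2 = rlast (it x.1) x.1.length x.2 := by
  unfold rlastL rlast lth
  rw [bigL_eq, posL_eq _ le_rfl]

theorem sum_poly' {α : Type} [TEnc α] {l : α → List ℕ} (h1 : NPC.Poly l) :
    NPC.Poly (fun z => (l z).sum) := NPC.Poly.sum h1

theorem bigL_poly' {α : Type} [TEnc α] {l : α → List ℕ} (h1 : NPC.Poly l) :
    NPC.Poly (fun z => bigL (l z)) := by
  unfold bigL
  have := sum_poly' h1
  fun_prop

attribute [fun_prop] bigL_poly'

theorem rlastL_poly' {α : Type} [TEnc α] {l : α → List ℕ} {G : α → ℕ} (h1 : NPC.Poly l)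
    (h2 : NPC.Poly G) : NPC.Poly (fun z => rlastL (l z) (G z)) := by
  unfold rlastL
  fun_prop

attribute [fun_prop] rlastL_poly'

/-- the job at place `p` -/
def jobL (x : List ℕ × ℕ) (p : ℕ) : ℕ × ℕ :=
  (if p = 2 * x.1.length + 1 then rlastL x.1 x.2
    else if p % 2 = 1 then posL x.1 p + (p / 2 + 1) * bigL x.1 + 1 else 0,
   if p = 0 ∨ p = 2 * x.1.length + 1 then 1 else if p % 2 = 1 then 2 * it x.1 (p / 2)
    else bigL x.1)

theorem jobL_poly : NPC.Poly (fun z : (List ℕ × ℕ) × ℕ => jobL z.1 z.2) := by
  unfold jobL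
  fun_prop

/-- the instance, in computable form -/
def mkL (x : List ℕ × ℕ) : Inst :=
  ((List.range (2 * x.1.length + 2)).map fun p => jobL x p,
    (List.range (2 * x.1.length + 1)).map fun e => (len (it x.1) e, len (it x.1) e),
    0, rlastL x.1 x.2 + 1 + posL x.1 (2 * x.1.length + 1) + 2 * (x.1.sum - x.2))

theorem mkL_eq : mkL x = mk x := by
  unfold mkL mk
  refine Prod.ext ?_ (Prod.ext rfl (Prod.ext rfl ?_))
  · simp only
    refine List.map_congr_left fun p hp => ?_
    rw [List.mem_range] at hp
    unfold jobL rl hn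
    rw [rlastL_eq, bigL_eq, posL_eq _ (by omega)]
  · simp only
    unfold bnd lth
    rw [rlastL_eq, posL_eq _ le_rfl, tot_eq]

theorem mkL_poly : NPC.Poly mkL := by
  unfold mkL
  refine NPC.Poly.pair ?_ (NPC.Poly.pair ?_ (NPC.Poly.pair (NPC.Poly.const _) ?_))
  · refine NPC.Poly.map (l := fun z : List ℕ × ℕ => List.range (2 * z.1.length + 2))
      (F := fun z p => jobL z p) ?_ jobL_poly
    exact (((UPoly.const 2).mul (UPoly.length (NPC.Poly.fst NPC.Poly.id))).add
      (UPoly.const 2)).range
  · refine NPC.Poly.map (l := fun z : List ℕ × ℕ => List.range (2 * z.1.length + 1))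
      (F := fun z e => (len (it z.1) e, len (it z.1) e)) ?_ ?_
    · exact (((UPoly.const 2).mul (UPoly.length (NPC.Poly.fst NPC.Poly.id))).add
        (UPoly.const 1)).range
    · fun_prop
  · have h1 : NPC.Poly (fun x : List ℕ × ℕ => x.1.sum) := sum_poly' (by fun_prop)
    fun_prop

theorem mk_poly : NPC.Poly mk := by
  have h : mk = mkL := funext fun x => (mkL_eq x).symm
  rw [h]
  exact mkL_poly

/-- Hardness on simple instances. -/
theorem hardPr_vsp : HardPr Simple PathVSP :=
  hardPr_SubsetSum.trans mk_poly (fun x hx => simple_mk x (fun a ha => (hx.1 a ha).1))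
    (fun x hx => correct' x hx)

end Pool.Agent.TH664.VSP
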