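import Pool.Agent.TH664.VSP.Lower

/-!
# A solution of the subset sum instance gives a fast schedule
-/

set_option autoImplicit false

namespace Pool.Agent.TH664.VSP

variable (a : ℕ → ℕ) (n G : ℕ) (f : ℕ → Bool)

/-- the jobs of gadget `i` processed on the way out -/
def gad (i : ℕ) : List ℕ := if f i = true then [2 * i + 2, 2 * i + 1] else [2 * i + 2]

/-- the jobs processed on the way out in the first `k` gadgets -/
def out : ℕ → List ℕ
  | 0 => [0]
  | k + 1 => out k ++ gad f k

/-- the items of the first `k` gadgets processed on the way back -/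
def back : ℕ → List ℕ
  | 0 => []
  | k + 1 => (if f k = true then [] else [2 * k + 1]) ++ back k

/-- the schedule -/
def sched : List ℕ := out f n ++ (2 * n + 1) :: back f n

theorem perm_aux (k : ℕ) : (out f k ++ back f k).Perm (List.range (2 * k + 1)) := by
  induction k with
  | zero => simp [out, back]
  | succ k ih =>
    have h1 : List.range (2 * (k + 1) + 1) = List.range (2 * k + 1) ++ [2 * k + 1, 2 * k + 2] := by
      rw [show 2 * (k + 1) + 1 = 2 * k + 1 + 1 + 1 by ring, List.range_succ, List.range_succ]
      simp
    rw [h1]
    have h2 : (out f (k + 1) ++ back f (k + 1)).Perm ((out f k ++ back f k) ++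
        [2 * k + 1, 2 * k + 2]) := by
      rw [out, back, gad]
      by_cases h : f k = true
      · simp only [h, if_true, List.nil_append, List.append_assoc]
        refine List.Perm.append_left _ ?_
        refine List.perm_append_comm.trans ?_
        refine List.Perm.append_left _ ?_
        exact List.Perm.swap _ _ _
      · simp only [h]
        rw [if_neg (by simp), if_neg (by simp)]
        simp only [List.append_assoc]
        refine List.Perm.append_left _ ?_
        refine List.Perm.trans (l₂ := ([2 * k + 2] ++ [2 * k + 1]) ++ back f k) (by simp) ?_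
        refine List.perm_append_comm.trans ?_
        refine List.Perm.append_left _ ?_
        exact List.Perm.swap _ _ _
    exact h2.trans (ih.append_right _)

theorem sched_perm : (sched n f).Perm (List.range (2 * n + 2)) := by
  unfold sched
  have h1 : List.range (2 * n + 2) = List.range (2 * n + 1) ++ [2 * n + 1] := List.range_succ
  rw [h1]
  refine List.Perm.trans ?_ ((perm_aux f n).append_right _)
  rw [List.append_assoc]
  refine List.Perm.append_left _ ?_
  exact List.perm_append_comm (l₁ := [2 * n + 1]) (l₂ := back f n)

/-- the sum of the chosen items of the first `k` gadgets -/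
def cho (k : ℕ) : ℕ := ∑ i ∈ Finset.range k, if f i = true then a i else 0

theorem out_time (k : ℕ) (hk : k ≤ n) :
    (adv (len a) (rl a n G) (hn a n) (0, 0) (out f k)).2 ≤ 2 * k ∧
    (adv (len a) (rl a n G) (hn a n) (0, 0) (out f k)).1 =
      pos (len a) (adv (len a) (rl a n G) (hn a n) (0, 0) (out f k)).2 + 1 + k * big a n +
        4 * cho a f k := by
  induction k with
  | zero =>
    have h1 : rl a n G 0 = 0 := by
      unfold rl
      rw [if_neg (by omega), if_neg (by omega)]
    simp [out, adv, h1, hn_zero, dis, cho, pos]
  | succ k ih =>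
    obtain ⟨ih1, ih2⟩ := ih (by omega)
    rw [out, adv_append]
    set s := adv (len a) (rl a n G) (hn a n) (0, 0) (out f k) with hs
    have hd : dis (len a) s.2 (2 * k + 2) = pos (len a) (2 * k + 2) - pos (len a) s.2 :=
      dis_le _ (by omega)
    have hm := pos_mono (len a) (p := s.2) (q := 2 * k + 2) (by omega)
    have hc : cho a f (k + 1) = cho a f k + if f k = true then a k else 0 := by
      unfold cho; rw [Finset.sum_range_succ]
    have hmul : (k + 1) * big a n = k * big a n + big a n := by ring
    have hs1 : pos (len a) (2 * k + 2) = pos (len a) (2 * k + 1) + a k := by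
      rw [pos_succ, len_odd]
    have hd2 : dis (len a) (2 * k + 2) (2 * k + 1) = a k := by
      rw [dis_ge _ (by omega)]; omega
    unfold gad
    by_cases h : f k = true
    · simp only [h, if_true, adv, rl_big, hn_big, rl_item a n G (show k < n by omega),
        hn_item a n (show k < n by omega), hd2, hd] at hc ⊢
      refine ⟨by omega, ?_⟩
      rw [Nat.max_eq_left (Nat.zero_le _), Nat.max_eq_left (by omega)]
      omega
    · simp only [h] at hc ⊢
      rw [if_neg (by simp)] at hc ⊢
      simp only [adv, rl_big, hn_big, hd]
      refine ⟨by omega, ?_⟩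
      rw [Nat.max_eq_left (Nat.zero_le _)]
      omega

theorem back_time (k : ℕ) (hk : k ≤ n) (s : ℕ × ℕ) (hs : rlast a n G ≤ s.1)
    (hp : 2 * k ≤ s.2 + 1) :
    (adv (len a) (rl a n G) (hn a n) s (back f k)).1 +
      dis (len a) (adv (len a) (rl a n G) (hn a n) s (back f k)).2 0 + 2 * cho a f k =
      s.1 + pos (len a) s.2 + 2 * ∑ i ∈ Finset.range k, a i := by
  induction k generalizing s with
  | zero => simp [back, adv, cho, dis, pos]
  | succ k ih =>
    have hc : cho a f (k + 1) = cho a f k + if f k = true then a k else 0 := by
      unfold cho; rw [Finset.sum_range_succ]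
    rw [back, adv_append]
    by_cases h : f k = true
    · have := ih (by omega) s hs (by omega)
      simp only [h, if_true, adv] at hc ⊢
      rw [Finset.sum_range_succ]
      omega
    · have hrl : rl a n G (2 * k + 1) ≤ rlast a n G := by
        rw [rl_item a n G (show k < n by omega)]
        have h1 : pos (len a) (2 * k + 1) ≤ lth a n := pos_mono (len a) (by omega)
        have h2 : (k + 1) * big a n ≤ n * big a n := Nat.mul_le_mul_right _ (by omega)
        unfold rlast
        omega
      have hd : dis (len a) s.2 (2 * k + 1) = pos (len a) s.2 - pos (len a) (2 * k + 1) :=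
        dis_ge _ (by omega)
      have hm := pos_mono (len a) (p := 2 * k + 1) (q := s.2) (by omega)
      simp only [h] at hc ⊢
      rw [if_neg (by simp)] at hc ⊢
      simp only [adv]
      have := ih (by omega) (max (s.1 + dis (len a) s.2 (2 * k + 1)) (rl a n G (2 * k + 1)) +
        hn a n (2 * k + 1), 2 * k + 1) (by
          have := le_max_left (s.1 + dis (len a) s.2 (2 * k + 1)) (rl a n G (2 * k + 1))
          simp only
          omega) (by simp only; omega)
      rw [Nat.max_eq_left (by omega), hn_item a n (show k < n by omega), hd] at this ⊢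
      rw [Finset.sum_range_succ]
      simp only at this
      omega

theorem upper (hf : (∑ i ∈ Finset.range n, if f i = true then a i else 0) = G) :
    (adv (len a) (rl a n G) (hn a n) (0, 0) (sched n f)).1 +
      dis (len a) (adv (len a) (rl a n G) (hn a n) (0, 0) (sched n f)).2 0 ≤ bnd a n G := by
  obtain ⟨h1, h2⟩ := out_time a n G f n le_rfl
  have hch : cho a f n = G := hf
  unfold sched
  rw [adv_append, adv]
  set s := adv (len a) (rl a n G) (hn a n) (0, 0) (out f n) with hs
  rw [rl_last, hn_last]
  have hd : dis (len a) s.2 (2 * n + 1) = pos (len a) (2 * n + 1) - pos (len a) s.2 :=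
    dis_le _ (by omega)
  have hm := pos_mono (len a) (p := s.2) (q := 2 * n + 1) (by omega)
  have hR : rlast a n G = pos (len a) (2 * n + 1) + n * big a n + 1 + 4 * G := rfl
  have hl : lth a n = pos (len a) (2 * n + 1) := rfl
  have ht : tot a n = ∑ i ∈ Finset.range n, a i := rfl
  have hb : bnd a n G = rlast a n G + 1 + lth a n + 2 * (tot a n - G) := rfl
  have h3 := back_time a n G f n le_rfl
    (max (s.1 + dis (len a) s.2 (2 * n + 1)) (rlast a n G) + 1, 2 * n + 1)
    (by have := le_max_right (s.1 + dis (len a) s.2 (2 * n + 1)) (rlast a n G)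
        simp only; omega) (by simp only; omega)
  have hGt : G ≤ tot a n := by
    rw [← hf]
    refine Finset.sum_le_sum fun i _ => ?_
    split_ifs
    · exact le_rfl
    · exact Nat.zero_le _
  rw [hd] at h3 ⊢
  rw [Nat.max_eq_left (by omega)] at h3 ⊢
  simp only at h3
  omega

/-- The reduction is correct. -/
theorem main (hG : G ≤ tot a n) :
    (∃ f : ℕ → Bool, (∑ i ∈ Finset.range n, if f i = true then a i else 0) = G) ↔
    ∃ π : List ℕ, π.Perm (List.range (2 * n + 2)) ∧
      (adv (len a) (rl a n G) (hn a n) (0, 0) π).1 +
      dis (len a) (adv (len a) (rl a n G) (hn a n) (0, 0) π).2 0 ≤ bnd a n G :=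
  ⟨fun ⟨f, hf⟩ => ⟨sched n f, sched_perm n f, upper a n G f hf⟩,
    fun ⟨π, hπ, hK⟩ => lower a n G hG π hπ hK⟩

end Pool.Agent.TH664.VSP
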